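import Pool.Agent.Lib.MP_7903c7_al.B.Fin

/-! Nilpotent thickenings: the trace of an idempotent only depends on its reduction. -/

set_option autoImplicit false

namespace Pool.Agent.Lib.MP_7903c7_al.AR

open scoped Classical
open Function Polynomial

/-- A surjection with nilpotent kernel. -/
def Thick {R k : Type} [CommRing R] [CommRing k] (ρ : R →+* k) : Prop :=
  Surjective ρ ∧ ∃ n : ℕ, RingHom.ker ρ ^ n = ⊥

lemma Thick.nil {R k : Type} [CommRing R] [CommRing k] {ρ : R →+* k} (h : Thick ρ) {x : R}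
    (hx : ρ x = 0) : IsNilpotent x := by
  obtain ⟨-, n, hn⟩ := h
  exact ⟨n, by simpa [hn] using Ideal.pow_mem_pow (I := RingHom.ker ρ) hx n⟩

lemma thick_id (k : Type) [CommRing k] : Thick (RingHom.id k) :=
  ⟨surjective_id, 1, by rw [pow_one]; exact (RingHom.injective_iff_ker_eq_bot _).1 injective_id⟩

lemma exists_thick {W Q k : Type} [CommRing W] [CommRing Q] [CommRing k] (q : W →+* Q)
    (hq : Surjective q) (φ : W →+* k) (hφ : Surjective φ) (h1 : RingHom.ker q ≤ RingHom.ker φ)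
    (n : ℕ) (h2 : RingHom.ker φ ^ n ≤ RingHom.ker q) :
    ∃ ρ : Q →+* k, (∀ x, ρ (q x) = φ x) ∧ Thick ρ := by
  have h3 := q.liftOfSurjective_comp_apply hq ⟨φ, h1⟩
  refine ⟨q.liftOfSurjective hq ⟨φ, h1⟩, h3, fun y => ?_, n, ?_⟩
  · obtain ⟨x, rfl⟩ := hφ y
    exact ⟨q x, h3 x⟩
  · have h4 : RingHom.ker (q.liftOfSurjective hq ⟨φ, h1⟩) ≤ (RingHom.ker φ).map q := by
      intro y hy
      obtain ⟨x, rfl⟩ := hq y
      exact Ideal.mem_map_of_mem _ ((h3 x).symm.trans hy)
    refine le_bot_iff.1 ((Ideal.pow_right_mono h4 n).trans ?_)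
    rw [← Ideal.map_pow, Ideal.map_le_iff_le_comap]
    exact h2

lemma trace_odd {B W : Type} [Ring B] [AddCommGroup W] (T : B →+ W)
    (hT : ∀ a b, T (a * b) = T (b * a)) {e f : B} (he : e * e = e) (hf : f * f = f)
    (hn : IsNilpotent (e - f)) : T e = T f := by
  set d := e - f with hd
  have c1 : Commute e (d * d) := by
    show e * (d * d) = d * d * e
    have : e * (d * d) - d * d * e = (e * e) * e - e * (e * e) - (e * e) * f + e * (f * f)
      + f * (e * e) - (f * f) * e := by rw [hd]; noncomm_ring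
    rw [← sub_eq_zero, this, he, hf]; noncomm_ring
  have c2 : Commute f (d * d) := by
    show f * (d * d) = d * d * f
    have : f * (d * d) - d * d * f = (f * f) * f - f * (f * f) - (f * f) * e + f * (e * e)
      + e * (f * f) - (e * e) * f := by rw [hd]; noncomm_ring
    rw [← sub_eq_zero, this, he, hf]; noncomm_ring
  have h3 : d * d * d = d - e * f * e + f * e * f := by
    have : d * d * d = (e * e) * e - (e * e) * f - e * f * e + e * (f * f) - f * (e * e)
      + f * e * f + (f * f) * e - (f * f) * f := by rw [hd]; noncomm_ring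
    rw [this, he, hf, he, hf, hd]; noncomm_ring
  have key : ∀ n : ℕ, T ((d * d) ^ n * d) = T d := by
    intro n
    induction n with
    | zero => simp
    | succ n ih =>
      have a1 : T ((d * d) ^ n * (e * f * e)) = T ((d * d) ^ n * (e * f)) := by
        rw [← mul_assoc, hT, ← mul_assoc, (c1.pow_right n).eq, mul_assoc, ← mul_assoc e, he]
      have a2 : T ((d * d) ^ n * (f * e * f)) = T ((d * d) ^ n * (f * e)) := by
        rw [← mul_assoc, hT, ← mul_assoc, (c2.pow_right n).eq, mul_assoc, ← mul_assoc f, hf]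
      have a3 : T ((d * d) ^ n * (e * f)) = T ((d * d) ^ n * (f * e)) := by
        rw [← mul_assoc, hT, ← mul_assoc, (c2.pow_right n).eq, mul_assoc]
      rw [pow_succ, mul_assoc, h3, mul_add, mul_sub, map_add, map_sub, a1, a2, a3, ih]
      abel
  obtain ⟨n, hn⟩ := hn
  have := key n
  rw [← sq, ← pow_mul, two_mul, pow_add, hn, zero_mul, zero_mul, map_zero, hd, map_sub] at this
  exact sub_eq_zero.1 this.symm

section

variable {G : Type} [Group G] {I : Type} [Fintype I] [DecidableEq I]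
variable {R k : Type} [CommRing R] [CommRing k]

/-- Change of coefficients. -/
noncomputable def mp (ρ : R →+* k) :
    Matrix I I (MonoidAlgebra R G) →+* Matrix I I (MonoidAlgebra k G) :=
  (MonoidAlgebra.mapRingHom G ρ).mapMatrix

lemma mp_coeff (ρ : R →+* k) (a : Matrix I I (MonoidAlgebra R G)) (i j : I) (h : G) :
    (mp ρ a i j).coeff h = ρ ((a i j).coeff h) := by simp [mp]

lemma tau_mp (ρ : R →+* k) (C : G → Prop) (a : Matrix I I (MonoidAlgebra R G)) :
    tau C (mp ρ a) = ρ (tau C a) := tau_map ρ C a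

lemma mp_mp {l : Type} [CommRing l] (ρ : R →+* k) (σ : k →+* l)
    (a : Matrix I I (MonoidAlgebra R G)) : mp σ (mp ρ a) = mp (σ.comp ρ) a := by
  ext i j h
  simp [mp_coeff]

lemma mp_congr {ρ σ : R →+* k} (h : ∀ x, ρ x = σ x) (a : Matrix I I (MonoidAlgebra R G)) :
    mp ρ a = mp σ a := by rw [RingHom.ext h]

lemma mp_id (a : Matrix I I (MonoidAlgebra R G)) : mp (RingHom.id R) a = a := by
  ext i j h
  simp [mp_coeff]

lemma mp_surj {ρ : R →+* k} (hρ : Surjective ρ) (A : Matrix I I (MonoidAlgebra k G)) :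
    ∃ a, mp ρ a = A := by
  have hex : ∀ i j, ∃ a : MonoidAlgebra R G, MonoidAlgebra.mapRingHom G ρ a = A i j := by
    intro i j
    have : A i j ∈ Set.range (MonoidAlgebra.map (M := G) (ρ : R →+ k)) := by
      rw [MonoidAlgebra.range_map]
      exact fun h => hρ _
    exact this
  choose a ha using hex
  exact ⟨Matrix.of a, by ext1 i j; exact ha i j⟩

lemma mp_eq_zero {l : Type} [CommRing l] {ρ : R →+* k} {σ : R →+* l}
    (h : ∀ x, ρ x = 0 → σ x = 0) {a : Matrix I I (MonoidAlgebra R G)} (ha : mp ρ a = 0) :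
    mp σ a = 0 := by
  ext i j u
  rw [mp_coeff, h _ (by rw [← mp_coeff, ha]; simp)]
  simp

lemma mp_idem {l : Type} [CommRing l] {ρ : R →+* k} {σ : R →+* l}
    (h : ∀ x, ρ x = 0 → σ x = 0) {a : Matrix I I (MonoidAlgebra R G)}
    (ha : mp ρ a * mp ρ a = mp ρ a) : mp σ a * mp σ a = mp σ a := by
  rw [← sub_eq_zero, ← map_mul, ← map_sub] at ha ⊢
  exact mp_eq_zero h ha

lemma pow_coeff_mem (K : Ideal R) {a : Matrix I I (MonoidAlgebra R G)}
    (ha : ∀ i j h, (a i j).coeff h ∈ K) (n : ℕ) (i j : I) (h : G) :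
    ((a ^ n) i j).coeff h ∈ K ^ n := by
  induction n generalizing i j h with
  | zero => simp
  | succ n ih =>
    rw [pow_succ, pow_succ, Matrix.mul_apply, MonoidAlgebra.coeff_sum, Finsupp.finsetSum_apply]
    refine Ideal.sum_mem _ fun l _ => ?_
    rw [MonoidAlgebra.coeff_mul_apply_left]
    exact Ideal.sum_mem _ fun u _ => Ideal.mul_mem_mul (ih _ _ _) (ha _ _ _)

lemma Thick.nil_mp {ρ : R →+* k} (hρ : Thick ρ) {a : Matrix I I (MonoidAlgebra R G)}
    (ha : mp ρ a = 0) : IsNilpotent a := by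
  obtain ⟨-, n, hn⟩ := hρ
  refine ⟨n, ?_⟩
  ext i j h
  have := pow_coeff_mem (RingHom.ker ρ) (a := a)
    (fun i j h => by rw [RingHom.mem_ker, ← mp_coeff, ha]; simp) n i j h
  rw [hn] at this
  simpa using this

lemma Thick.tau_eq {ρ : R →+* k} (hρ : Thick ρ) (g : G) {a b : Matrix I I (MonoidAlgebra R G)}
    (ha : a * a = a) (hb : b * b = b) (h : mp ρ a = mp ρ b) :
    tau (fun h => IsConj h g) a = tau (fun h => IsConj h g) b :=
  trace_odd _ (tau_mul_comm (isConj_swap g)) ha hb (hρ.nil_mp (by rw [map_sub, h, sub_self]))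

lemma Thick.lift {ρ : R →+* k} (hρ : Thick ρ) {A : Matrix I I (MonoidAlgebra k G)}
    (hA : A * A = A) : ∃ a, a * a = a ∧ mp ρ a = A :=
  exists_isIdempotentElem_eq_of_ker_isNilpotent (f := mp ρ)
    (fun _ hx => hρ.nil_mp (RingHom.mem_ker.1 hx)) A (RingHom.mem_range.2 (mp_surj hρ.1 A)) hA

/-- The trace vanishes in every nilpotent thickening. -/
def Van (g : G) (A : Matrix I I (MonoidAlgebra k G)) : Prop :=
  ∀ (R : Type) [CommRing R] (ρ : R →+* k), Thick ρ → ∀ B : Matrix I I (MonoidAlgebra R G),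
    B * B = B → mp ρ B = A → tau (fun h => IsConj h g) B = 0

lemma van_fin {p : ℕ} (hp : p.Prime) (hk : (p : k) = 0) {g : G} (h0 : orderOf g ≠ 0)
    (hd : p ∣ orderOf g) (A : Matrix I I (MonoidAlgebra k G)) : Van g A := by
  intro R _ ρ hρ B hB _
  obtain ⟨n, hn⟩ := hρ.nil (x := p) (by rw [map_natCast, hk])
  by_contra hne
  obtain ⟨m, hm, c, hc⟩ := Fin.conj_of_not_dvd hp hB g n (by
    rw [Nat.cast_pow, pow_succ, hn, zero_mul, zero_dvd_iff]; exact hne)
  have h4 := SemiconjBy.orderOf_eq (c : G) hc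
  rw [orderOf_pow' _ (pow_ne_zero m hp.ne_zero)] at h4
  have h5 : p ∣ (orderOf g).gcd (p ^ m) := Nat.dvd_gcd hd (dvd_pow_self p hm.ne')
  have h6 := Nat.le_of_dvd (Nat.gcd_pos_of_pos_left _ (Nat.pos_of_ne_zero h0)) h5
  exact (Nat.div_lt_self (Nat.pos_of_ne_zero h0) (hp.one_lt.trans_le h6)).ne' h4

end

/-- An unramified lift of a finite field, mapping to every thickening. -/
theorem exists_unram (k : Type) [Field k] [Finite k] {p : ℕ} (hp : p.Prime) [CharP k p] :
    ∃ (O : Type) (_ : CommRing O) (π : O →+* k), (∀ x : O, (p : O) * x = 0 → x = 0) ∧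
      Surjective π ∧ (∀ x, π x = 0 → ∃ y, x = p * y) ∧
      ∀ (R : Type) [CommRing R] (ρ : R →+* k), Thick ρ → ∃ φ : O →+* R, ∀ x, ρ (φ x) = π x := by
  have := Fact.mk hp
  let := ZMod.algebra k p
  obtain ⟨θ, hθ⟩ := Field.exists_primitive_element (ZMod p) k
  have hi : IsIntegral (ZMod p) θ := Algebra.IsIntegral.isIntegral θ
  obtain ⟨f, hf, -, hm⟩ := lifts_and_natDegree_eq_and_monic
    (f := Int.castRingHom (ZMod p)) (p := minpoly (ZMod p) θ)
    (by rw [lifts_iff_coeff_lifts]; exact fun n => ZMod.intCast_surjective _) (minpoly.monic hi)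
  have hev : ∀ q : ℤ[X], aeval θ (q.map (Int.castRingHom (ZMod p))) = aeval θ q := fun q =>
    aeval_map_algebraMap (ZMod p) θ q
  have h0 : aeval θ f = 0 := by rw [← hev, hf, minpoly.aeval]
  have h1 : aeval θ (derivative f) ≠ 0 := by
    rw [← hev, ← derivative_map, hf]
    exact (Algebra.IsSeparable.isSeparable (ZMod p) θ).aeval_derivative_ne_zero (minpoly.aeval _ _)
  have hπ : ∀ q : ℤ[X], AdjoinRoot.lift (Int.castRingHom k) θ h0 (AdjoinRoot.mk f q) = aeval θ q :=
    fun q => AdjoinRoot.lift_mk h0 q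
  refine ⟨AdjoinRoot f, inferInstance, AdjoinRoot.lift (Int.castRingHom k) θ h0, fun x hx => ?_,
    fun y => ?_, fun x hx => ?_, fun R _ ρ hρ => ?_⟩
  · obtain ⟨q, rfl⟩ := AdjoinRoot.mk_surjective x
    rw [← map_natCast (AdjoinRoot.mk f), ← map_mul, AdjoinRoot.mk_eq_zero] at hx
    rw [AdjoinRoot.mk_eq_zero, ← modByMonic_eq_zero_iff_dvd hm]
    rw [← modByMonic_eq_zero_iff_dvd hm, ← nsmul_eq_mul, ← natCast_zsmul, smul_modByMonic] at hx
    exact (smul_eq_zero.1 hx).resolve_left (by exact_mod_cast hp.ne_zero)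
  · have hy : y ∈ Algebra.adjoin (ZMod p) {θ} := by
      rw [← IntermediateField.adjoin_simple_toSubalgebra_of_isAlgebraic hi.isAlgebraic, hθ]
      trivial
    rw [Algebra.adjoin_singleton_eq_range_aeval] at hy
    obtain ⟨q, rfl⟩ := hy
    obtain ⟨q, rfl⟩ := map_surjective (Int.castRingHom (ZMod p)) ZMod.intCast_surjective q
    exact ⟨AdjoinRoot.mk f q, (hπ q).trans (hev q).symm⟩
  · obtain ⟨q, rfl⟩ := AdjoinRoot.mk_surjective x
    rw [hπ, ← hev] at hx
    obtain ⟨u, hu⟩ := minpoly.dvd (ZMod p) θ hx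
    obtain ⟨u, rfl⟩ := map_surjective (Int.castRingHom (ZMod p)) ZMod.intCast_surjective u
    have h2 : C (p : ℤ) ∣ q - f * u := by
      rw [C_dvd_iff_dvd_coeff]
      intro n
      rw [← ZMod.intCast_zmod_eq_zero_iff_dvd]
      have : ((q - f * u).map (Int.castRingHom (ZMod p))).coeff n = 0 := by
        rw [Polynomial.map_sub, Polynomial.map_mul, hf, hu, sub_self, coeff_zero]
      rwa [coeff_map] at this
    obtain ⟨v, hv⟩ := h2
    refine ⟨AdjoinRoot.mk f v, ?_⟩
    rw [sub_eq_iff_eq_add.1 hv]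
    simp
  · obtain ⟨t, ht⟩ := hρ.1 θ
    have hρev : ∀ (s : R) (q : ℤ[X]), ρ (aeval s q) = aeval (ρ s) q := fun s q =>
      (aeval_algHom_apply ρ.toIntAlgHom s q).symm
    have hu : IsUnit (aeval t (derivative f)) := by
      obtain ⟨s, hs⟩ := hρ.1 (aeval θ (derivative f))⁻¹
      have h3 : IsNilpotent (aeval t (derivative f) * s - 1) :=
        hρ.nil (by rw [map_sub, map_mul, hρev, ht, hs, mul_inv_cancel₀ h1, map_one, sub_self])
      exact isUnit_of_mul_isUnit_left (by simpa using h3.isUnit_add_one)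
    obtain ⟨r, ⟨hr1, hr2⟩, -⟩ := existsUnique_nilpotent_sub_and_aeval_eq_zero (x := t) (P := f)
      (hρ.nil (by rw [hρev, ht, h0])) hu
    have hr : ρ r = θ := by
      have := (hr1.map ρ).eq_zero
      rw [map_sub, ht, sub_eq_zero] at this
      exact this.symm
    refine ⟨AdjoinRoot.lift (Int.castRingHom R) r hr2, fun x => ?_⟩
    obtain ⟨q, rfl⟩ := AdjoinRoot.mk_surjective x
    rw [hπ, ← hr, ← hρev]
    exact congrArg ρ (AdjoinRoot.lift_mk hr2 q)

end Pool.Agent.Lib.MP_7903c7_al.AR
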