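import Pool.Agent.Lib.MP_7903c7_al.PT.Main
import Pool.Agent.Lib.MP_7903c7_al.AR.Thick

/-! Elements of infinite order: the lifted trace is divisible by every power of `p`. -/

set_option autoImplicit false

namespace Pool.Agent.Lib.MP_7903c7_al.AR

open Finset Function Pool.Agent.Lib.MP_7903c7_al.RF Pool.Agent.Lib.MP_7903c7_al.PT
open scoped Classical Pointwise

theorem cover_ge {G : Type} [Group G] {p : ℕ} (hp : p.Prime) {g : G} (hg : orderOf g = 0)
    {S : Finset G} (h1 : (1 : G) ∈ S) (hS : ∀ s ∈ S, s⁻¹ ∈ S) (x0 : ℕ) :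
    ∃ x : ℕ, x0 < x ∧ ∀ c : ℕ, 0 < c → ∃ n0 : ℕ, 0 < n0 ∧ c ∣ n0 ∧
      Sys p g S (40 * x * n0) (40 * x) (3 * x) (3 * x) Set.univ := by
  have hK : S.card ≤ 2 ^ S.card := Nat.lt_two_pow_self.le
  obtain ⟨R, Sg, T, b, gg, F, c0, L0, hR, hgg, hF, hT, hg', hb, H⟩ :=
    tower hp S.card (1 / 100) (by norm_num)
  obtain ⟨Q, hP, hV, H1⟩ := H G g S h1 hS hK
  obtain ⟨c1, L1, H2⟩ :=
    sysMZ hp hg h1 hS hK R Sg T b gg hR hgg hT hg' (1 / 100) (by norm_num) hb Q hP hV
  obtain ⟨x, hx⟩ : ∃ x, x = c0 + c1 + L0 + L1 + 1 + x0 := ⟨_, rfl⟩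
  obtain ⟨a1, H1⟩ := H1 (40 * x) (by omega)
  obtain ⟨a2, H2⟩ := H2 (40 * x) (by omega)
  refine ⟨x, by omega, fun c hc => ?_⟩
  have hn : a1 + a2 + 1 ≤ c * F * (a1 + a2 + 1) := Nat.le_mul_of_pos_left _ (Nat.mul_pos hc hF)
  obtain ⟨k1, e1, s1⟩ := H1 (c * F * (a1 + a2 + 1)) (by omega)
    ((dvd_mul_left F c).mul_right _)
  obtain ⟨k2, e2, s2⟩ := H2 (c * F * (a1 + a2 + 1)) (by omega)
  have hk : k1 + k2 ≤ 2 * x + (c0 + c1) := by
    have : (k1 : ℝ) + k2 ≤ 2 * x + (c0 + c1) := by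
      push_cast at e1 e2
      linarith
    exact_mod_cast this
  exact ⟨_, by omega, (dvd_mul_right c F).mul_right _,
    (s1.union s2).mono (by omega) (by omega) fun γ _ _ => (em _).symm⟩

variable {G I : Type} [Group G] [Fintype I] [DecidableEq I]

/-- The trace of a filtered idempotent is killed by a small power of `p`. -/
theorem small_power {p : ℕ} (hp : p.Prime) {g : G} (hg : orderOf g = 0) {S : Finset G}
    (h1 : (1 : G) ∈ S) (hS : ∀ s ∈ S, s⁻¹ ∈ S) (x0 : ℕ) :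
    ∃ x : ℕ, x0 < x ∧ ∀ (Λ : Type) [CommRing Λ] (e : Matrix I I (MonoidAlgebra Λ G)),
      (p : Λ) ^ (10 * x) = 0 → e * e = e → Lift.In (S ^ (2 * (10 * x) + 1)) e →
      (∀ i j h, (p : Λ) ^ (Lift.wl S h / 2) ∣ (e i j).coeff h) →
      (p : Λ) ^ (3 * x) * tau (fun h => IsConj h g) e = 0 := by
  obtain ⟨x, hx, H⟩ := cover_ge hp hg h1 hS x0
  refine ⟨x, hx, fun Λ _ e hJ he hin hv => ?_⟩
  obtain ⟨n0, hn0, ⟨c, hc⟩, ι, s, a, w, F, hs, ha, hw, hF, hcov⟩ := H _ (pow_pos hp.pos (10 * x))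
  have hU : ∀ h, h ∉ S ^ (2 * (10 * x) + 1) →
      (Matrix.of fun i j => (e i j).coeff h : Matrix I I Λ) = 0 := fun h hh => by
    ext i j
    simp [hin i j h hh]
  have hE : ∀ v, ∑ u ∈ S ^ (2 * (10 * x) + 1), (Matrix.of fun i j => (e i j).coeff u : Matrix I I Λ)
      * (Matrix.of fun i j => (e i j).coeff (u⁻¹ * v)) = Matrix.of fun i j => (e i j).coeff v := by
    intro v
    ext i j
    rw [Matrix.of_apply]
    conv_rhs => rw [← he, Matrix.mul_apply]
    simp only [Matrix.sum_apply, Matrix.mul_apply, Matrix.of_apply, MonoidAlgebra.coeff_sum,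
      Finsupp.finsetSum_apply, MonoidAlgebra.coeff_mul_apply_left]
    rw [Finset.sum_comm]
    exact Finset.sum_congr rfl fun l _ =>
      (Finsupp.sum_of_support_subset _
        (fun u hu => by_contra fun h => Finsupp.mem_support_iff.1 hu (hin i l u h))
        (fun h r => r * (e l j).coeff (h⁻¹ * v)) (by simp)).symm
  have hfil : ∀ h j, h ∉ (S : Set G) ^ (2 * j + 1) →
      ∀ i i', ∃ y, (e i i').coeff h = (p : Λ) ^ (j + 1) * y := fun h j hh i i' => by
    by_cases h0 : (e i i').coeff h = 0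
    · exact ⟨0, by simp [h0]⟩
    have h2 : 2 * j + 1 < Lift.wl S h := not_le.1 fun hle => hh (by
      exact_mod_cast pow_subset_pow_right h1 hle
        (Lift.mem_wl (by_contra fun h3 => h0 (hin i i' h h3))))
    exact (pow_dvd_pow _ (by omega)).trans (hv i i' h)
  have key := abc_cover (⟨g, Subgroup.centralizer {g}, fun h => Matrix.of fun i j => (e i j).coeff h,
      S ^ (2 * (10 * x) + 1), Subgroup.mem_centralizer_singleton_iff.2 rfl,
      fun c hc => Subgroup.mem_centralizer_singleton_iff.1 hc, by simp, hU, hE⟩ : Dat G I Λ)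
    S h1 hp hJ hfil (40 * x * n0) (40 * x) (by have : 0 < x := by omega
                                               positivity)
    (by rw [hc]; push_cast; rw [hJ]; ring) s a w F (by omega) hw hF fun γ hγ =>
      (hcov γ hγ trivial).imp fun i hi => ⟨hi.1, fun γ' γ'' k1 k2 k3 k4 =>
        hi.2 γ' γ'' k1 k2 (k3.trans (by omega)) (k4.trans (by omega))⟩
  obtain ⟨b, hb⟩ := Nat.exists_eq_add_of_le ha
  rw [hb, add_comm, pow_add, mul_assoc, Lift.tau_eq hin]
  simp only [Dat.tr, Subgroup.relIndex_self, Nat.cast_one, one_mul] at key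
  rw [key, mul_zero]

omit [Fintype I] [DecidableEq I] in
lemma exists_supp {k : Type} [CommRing k] [Finite I] (A : Matrix I I (MonoidAlgebra k G)) :
    ∃ S : Finset G, (1 : G) ∈ S ∧ (∀ s ∈ S, s⁻¹ ∈ S) ∧ Lift.In S A := by
  have := Fintype.ofFinite I
  let S0 : Finset G := insert 1 (univ.biUnion fun q : I × I => (A q.1 q.2).coeff.support)
  refine ⟨S0 ∪ S0⁻¹, mem_union_left _ (mem_insert_self _ _), fun u hu => ?_, fun i j h hh =>
    Finsupp.notMem_support_iff.1 fun hu => hh (mem_union_left _ (mem_insert_of_mem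
      (mem_biUnion.mpr ⟨(i, j), mem_univ _, hu⟩)))⟩
  rcases mem_union.mp hu with h | h
  · exact mem_union_right _ (inv_mem_inv h)
  · exact mem_union_left _ (by simpa using inv_mem_inv h)

lemma idem_of {O R : Type} [CommRing O] [CommRing R] (φ : O →+* R) {p J : ℕ}
    (h : (p : R) ^ J = 0) {e d : Matrix I I (MonoidAlgebra O G)} (hd : e * e - e = p ^ J • d) :
    mp φ e * mp φ e = mp φ e := by
  rw [← sub_eq_zero, ← map_mul, ← map_sub, hd, map_nsmul]
  ext i j u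
  rw [Lift.coeff_nsmul, Nat.cast_pow, h]
  simp

variable {k : Type} [Field k] [Finite k] {p : ℕ} [CharP k p]

theorem van_inf (hp : p.Prime) {A : Matrix I I (MonoidAlgebra k G)} (hA : A * A = A) {g : G}
    (hg : orderOf g = 0) : Van g A := by
  intro R _ ρ hρ B hB hBA
  obtain ⟨O, _, π, htf, hs, hk, hφ⟩ := exists_unram k hp
  obtain ⟨φ, hφ⟩ := hφ R ρ hρ
  obtain ⟨n, hn⟩ := hρ.nil (x := p) (by rw [map_natCast, CharP.cast_eq_zero])
  obtain ⟨S, h1, hS, hin⟩ := exists_supp A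
  obtain ⟨x, hx, H⟩ := small_power (I := I) hp hg h1 hS n
  obtain ⟨e, he, ⟨d, hd⟩, hin', hv⟩ := Lift.exists_lift π hs hk hA h1 hin (10 * x)
  let q := Ideal.Quotient.mk (Ideal.span {(p : O) ^ (10 * x)})
  have hq : (p : O ⧸ Ideal.span {(p : O) ^ (10 * x)}) ^ (10 * x) = 0 := by
    rw [← map_natCast q, ← map_pow]
    exact Ideal.Quotient.eq_zero_iff_mem.2 (Ideal.mem_span_singleton_self _)
  have h2 := H _ (mp q e) hq (idem_of q hq hd)
    (fun i j h hh => by rw [mp_coeff, hin' i j h hh, map_zero])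
    (fun i j h => by rw [mp_coeff]; simpa using map_dvd q (hv i j h))
  rw [tau_mp, ← map_natCast q, ← map_pow, ← map_mul, Ideal.Quotient.eq_zero_iff_mem,
    Ideal.mem_span_singleton] at h2
  obtain ⟨y, hy⟩ := h2
  have htf' : ∀ (m : ℕ) (z : O), (p : O) ^ m * z = 0 → z = 0 := fun m => by
    induction m with
    | zero => simp
    | succ m ih => exact fun z hz => htf z (ih _ (by rw [← mul_assoc, ← pow_succ, hz]))
  have h3 : tau (fun h => IsConj h g) e = (p : O) ^ (7 * x) * y :=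
    sub_eq_zero.1 (htf' (3 * x) _ (by rw [mul_sub, hy]; ring))
  rw [hρ.tau_eq g hB (idem_of φ (pow_eq_zero_of_le (by omega) hn) hd)
    (by rw [hBA, mp_mp, mp_congr (σ := π) hφ]; exact he.symm), tau_mp, h3, map_mul, map_pow,
    map_natCast, pow_eq_zero_of_le (by omega) hn, zero_mul]

theorem van_crit (hp : p.Prime) {A : Matrix I I (MonoidAlgebra k G)} (hA : A * A = A) {g : G}
    (H : ∀ j : ℕ, ∃ (R : Type) (_ : CommRing R) (ρ : R →+* k) (B : Matrix I I (MonoidAlgebra R G)),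
      Thick ρ ∧ (p : R) ^ j ≠ 0 ∧ B * B = B ∧ mp ρ B = A ∧ tau (fun h => IsConj h g) B = 0) :
    Van g A := by
  intro R _ ρ hρ B hB hBA
  obtain ⟨O, _, π, -, hs, hk, hφ⟩ := exists_unram k hp
  obtain ⟨n, hn⟩ := hρ.nil (x := p) (by rw [map_natCast, CharP.cast_eq_zero])
  obtain ⟨R', _, ρ', B', hρ', hne, hB', hBA', h0⟩ := H n
  obtain ⟨n', hn'⟩ := hρ'.nil (x := p) (by rw [map_natCast, CharP.cast_eq_zero])
  obtain ⟨φ', hφ'⟩ := hφ R' ρ' hρ'
  obtain ⟨φ, hφ⟩ := hφ R ρ hρ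
  obtain ⟨S, h1, -, hin⟩ := exists_supp A
  obtain ⟨e, he, ⟨d, hd⟩, -, -⟩ := Lift.exists_lift π hs hk hA h1 hin (n + n')
  rw [hρ'.tau_eq g hB' (idem_of φ' (pow_eq_zero_of_le (by omega) hn') hd)
    (by rw [hBA', mp_mp, mp_congr (σ := π) hφ']; exact he.symm), tau_mp] at h0
  rw [hρ.tau_eq g hB (idem_of φ (pow_eq_zero_of_le (by omega) hn) hd)
    (by rw [hBA, mp_mp, mp_congr (σ := π) hφ]; exact he.symm), tau_mp]
  have key : ∀ i ≤ n, ∃ y, tau (fun h => IsConj h g) e = (p : O) ^ i * y := by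
    intro i
    induction i with
    | zero => exact fun _ => ⟨_, by rw [pow_zero, one_mul]⟩
    | succ i ih =>
      intro hi
      obtain ⟨y, hy⟩ := ih (by omega)
      by_cases hz : π y = 0
      · obtain ⟨z, rfl⟩ := hk y hz
        exact ⟨z, by rw [hy]; ring⟩
      · obtain ⟨s, hs⟩ := hρ'.1 (π y)⁻¹
        have h3 : IsNilpotent (φ' y * s - 1) :=
          hρ'.nil (by rw [map_sub, map_mul, hφ', hs, mul_inv_cancel₀ hz, map_one, sub_self])
        have hu : IsUnit (φ' y) := isUnit_of_mul_isUnit_left (by simpa using h3.isUnit_add_one)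
        rw [hy, map_mul, map_pow, map_natCast, hu.mul_left_eq_zero] at h0
        exact absurd (pow_eq_zero_of_le (by omega) h0) hne
  obtain ⟨y, hy⟩ := key n le_rfl
  rw [hy, map_mul, map_pow, map_natCast, hn, zero_mul]

end Pool.Agent.Lib.MP_7903c7_al.AR
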