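import Pool.Agent.Lib.MP_7903c7_al.AR.Move

/-! The trace conjecture over arbitrary commutative rings. -/

set_option autoImplicit false

namespace Pool.Agent.Lib.MP_7903c7_al.AR

open Function
open scoped Classical

lemma residue {R : Type} [CommRing R] [Algebra.FiniteType ℤ R] (M : Ideal R) [hM : M.IsMaximal] :
    Finite (R ⧸ M) ∧ ∃ p : ℕ, p.Prime ∧ CharP (R ⧸ M) p := by
  have := int_jacobson
  let := Ideal.Quotient.field M
  have hfin := finite_of_finite_type_of_isJacobsonRing ℤ (R ⧸ M)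
  obtain ⟨p, hp⟩ := CharP.exists (R ⧸ M)
  have hprime : p.Prime := by
    refine (CharP.char_is_prime_or_zero (R ⧸ M) p).resolve_right ?_
    rintro rfl
    have : CharZero (R ⧸ M) := CharP.charP_to_charZero _
    exact Int.not_isField (isField_of_isIntegral_of_isField (R := ℤ) (S := R ⧸ M)
      (algebraMap ℤ (R ⧸ M)).injective_int (Field.toIsField _))
  refine ⟨Module.finite_of_fg_torsion _ fun x => ⟨⟨(p : ℤ), ?_⟩, ?_⟩, p, hprime, hp⟩
  · exact mem_nonZeroDivisors_of_ne_zero (by exact_mod_cast hprime.ne_zero)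
  · show (p : ℤ) • x = 0
    rw [zsmul_eq_mul, Int.cast_natCast, CharP.cast_eq_zero, zero_mul]

lemma spread {R : Type} [CommRing R] [IsNoetherianRing R] (V : Ideal R → Prop) (m : R)
    (hm : ∀ e : R, e * e = e → m ∣ e → e = 0) (h1 : ∀ M : Ideal R, M.IsMaximal → m ∈ M → V M)
    (h2 : ∀ P M M' : Ideal R, P.IsPrime → M.IsMaximal → M'.IsMaximal → P ≤ M → P ≤ M' → V M → V M')
    (M : Ideal R) (hM : M.IsMaximal) : V M := by
  let s := (minimalPrimes.finite_of_isNoetherianRing R).toFinset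
  have hs : ∀ P, P ∈ s ↔ P ∈ minimalPrimes R := fun P => Set.Finite.mem_toFinset _
  let bad : Ideal R → Prop := fun P => ∃ N : Ideal R, N.IsMaximal ∧ P ≤ N ∧ ¬ V N
  have hb : ∀ N : Ideal R, N.IsMaximal → (s.filter bad).inf id ≤ N → ¬ V N := fun N hN h hV => by
    obtain ⟨P, hP, hPN⟩ := hN.isPrime.inf_le'.1 h
    obtain ⟨hP1, N', a1, a2, a3⟩ := Finset.mem_filter.1 hP
    exact a3 (h2 P N N' ((hs P).1 hP1).1.1 hN a1 hPN a2 hV)
  have hc : (s.filter fun P => ¬ bad P).inf id ⊓ Ideal.span {m} ⊔ (s.filter bad).inf id = ⊤ := by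
    by_contra hne
    obtain ⟨N, hN, hle⟩ := Ideal.exists_le_maximal _ hne
    refine hb N hN (le_sup_right.trans hle) ?_
    rcases hN.isPrime.inf_le.1 (le_sup_left.trans hle) with h | h
    · obtain ⟨P, hP, hPN⟩ := hN.isPrime.inf_le'.1 h
      by_contra hV
      exact (Finset.mem_filter.1 hP).2 ⟨N, hN, hPN, hV⟩
    · exact h1 N hN (h (Ideal.mem_span_singleton_self m))
  obtain ⟨x, ⟨hx1, hx2⟩, y, hy, hxy⟩ := Submodule.mem_sup.1 ((Ideal.eq_top_iff_one _).1 hc)
  obtain ⟨n, hn⟩ : IsNilpotent (x * y) := by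
    rw [← mem_nilradical, nilradical, ← Ideal.sInf_minimalPrimes, Ideal.mem_sInf]
    intro P hP
    by_cases h : bad P
    · exact P.mul_mem_left _ (Finset.inf_le (f := id) (Finset.mem_filter.2 ⟨(hs P).2 hP, h⟩) hy)
    · exact P.mul_mem_right _ (Finset.inf_le (f := id) (Finset.mem_filter.2 ⟨(hs P).2 hP, h⟩) hx1)
  obtain ⟨a, b, hab⟩ : IsCoprime (x ^ (n + 1)) (y ^ (n + 1)) :=
    IsCoprime.pow ⟨1, 1, by rw [one_mul, one_mul, hxy]⟩
  have h3 := hm (a * x ^ (n + 1))
    (by linear_combination (a * x ^ (n + 1)) * hab - a * b * (x * y) * hn)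
    (((Ideal.mem_span_singleton.1 hx2).trans (dvd_pow_self x n.succ_ne_zero)).mul_left a)
  rw [h3, zero_add] at hab
  by_contra hV
  obtain ⟨P, hP, hPM⟩ := Ideal.exists_minimalPrimes_le (I := ⊥) (J := M) bot_le
  have h4 : y ∈ M := hPM
    (Finset.inf_le (f := id) (Finset.mem_filter.2 ⟨(hs P).2 hP, M, hM, hPM, hV⟩) hy)
  exact hM.ne_top ((Ideal.eq_top_iff_one _).2
    (hab ▸ M.mul_mem_left _ (M.pow_mem_of_mem h4 _ n.succ_pos)))

variable {G I : Type} [Group G] [Fintype I] [DecidableEq I]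

theorem main_fg {R : Type} [CommRing R] [Algebra.FiniteType ℤ R]
    {A : Matrix I I (MonoidAlgebra R G)} (hA : A * A = A) {g : G}
    (hg : ∀ e : R, e * e = e → ((orderOf g : ℕ) : R) ∣ e → e = 0) :
    tau (fun h => IsConj h g) A = 0 := by
  have : IsNoetherianRing R := Algebra.FiniteType.isNoetherianRing ℤ R
  have key := spread (fun M => Van g (mp (Ideal.Quotient.mk M) A)) _ hg (fun M hM hm => ?_)
    fun P M M' hP hM hM' h1 h2 H => ?_
  · by_contra hne
    obtain ⟨M, hM, hle⟩ := Ideal.exists_le_maximal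
      (Ideal.torsionOf R R (tau (fun h => IsConj h g) A)) (by
        rwa [Ne, Ideal.torsionOf_eq_top_iff])
    obtain ⟨r, hr⟩ := (M.mem_iInf_smul_pow_eq_bot_iff (M := R) (tau (fun h => IsConj h g) A)).1 (by
      rw [Submodule.mem_iInf]
      intro n
      have := (key M hM).mem_pow Ideal.Quotient.mk_surjective hA n
      rw [Ideal.mk_ker] at this
      simpa using this)
    have h3 : 1 - (r : R) ∈ M := hle (by
      rw [Ideal.mem_torsionOf_iff, sub_smul, hr, one_smul, sub_self])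
    exact hM.ne_top ((Ideal.eq_top_iff_one _).2 (by simpa using M.add_mem h3 r.2))
  · let := Ideal.Quotient.field M
    obtain ⟨_, p, hp, _⟩ := residue M
    by_cases h0 : orderOf g = 0
    · exact van_inf hp (by rw [← map_mul, hA]) h0
    · refine van_fin hp (CharP.cast_eq_zero _ p) h0 ?_ _
      rw [← CharP.cast_eq_zero_iff (R ⧸ M), ← map_natCast (Ideal.Quotient.mk M)]
      exact Ideal.Quotient.eq_zero_iff_mem.2 hm
  · let := Ideal.Quotient.field M
    let := Ideal.Quotient.field M'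
    obtain ⟨_, p, hp, _⟩ := residue M'
    have := Van.move (g := g) hp (Ideal.Quotient.factor_surjective h1)
      (Ideal.Quotient.factor_surjective h2) (A := mp (Ideal.Quotient.mk P) A)
      (by rw [← map_mul, hA]) (by rwa [mp_mp, Ideal.Quotient.factor_comp_mk])
    rwa [mp_mp, Ideal.Quotient.factor_comp_mk] at this

theorem main {R : Type} [CommRing R] {A : Matrix I I (MonoidAlgebra R G)} (hA : A * A = A) {g : G}
    (hg : ∀ e : R, e * e = e → ((orderOf g : ℕ) : R) ∣ e → e = 0) :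
    tau (fun h => IsConj h g) A = 0 := by
  obtain ⟨R0, _, A0, h1, h2⟩ := Fin.exists_fg hA
  rw [← h2, tau_map, main_fg h1 fun e he hd => Subtype.ext (hg e (congrArg Subtype.val he)
    (by simpa using map_dvd R0.val hd)), map_zero]

end Pool.Agent.Lib.MP_7903c7_al.AR
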