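import Pool.Agent.Lib.MP_7903c7_al.AR.Eng

/-! Vanishing in all thickenings is constant along irreducible components. -/

set_option autoImplicit false

namespace Pool.Agent.Lib.MP_7903c7_al.AR

open Function
open scoped Classical

lemma thick_pow {D k : Type} [CommRing D] [CommRing k] {σ : D →+* k} (hσ : Surjective σ) (n : ℕ) :
    ∃ ρ : (D ⧸ RingHom.ker σ ^ (n + 1)) →+* k, (∀ x, ρ (Ideal.Quotient.mk _ x) = σ x) ∧ Thick ρ :=
  exists_thick _ Ideal.Quotient.mk_surjective σ hσ
    (by rw [Ideal.mk_ker]; exact Ideal.pow_le_self n.succ_ne_zero) (n + 1) (by rw [Ideal.mk_ker])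

lemma ker_cc_pow {B : Type} [CommRing B] {p : ℕ} [Fact p.Prime] [CharP B p] (J : ℕ) :
    RingHom.ker (WittVector.constantCoeff (p := p) (R := B)) ^ J ≤
      RingHom.ker (WittVector.truncate (p := p) (R := B) J) := by
  induction J with
  | zero =>
    intro x _
    rw [WittVector.mem_ker_truncate]
    exact fun i hi => absurd hi (Nat.not_lt_zero i)
  | succ J ih =>
    rw [pow_succ, Ideal.mul_le]
    intro x hx y hy
    have h1 := WittVector.eq_iterate_verschiebung ((WittVector.mem_ker_truncate _ _).1 (ih hx))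
    have h2 := WittVector.eq_iterate_verschiebung (x := y) (n := 1) fun i hi => by
      obtain rfl : i = 0 := by omega
      exact hy
    rw [WittVector.mem_ker_truncate, h1, h2, WittVector.iterate_verschiebung_mul]
    exact fun i hi => WittVector.iterate_verschiebung_coeff_eq_zero _ hi

/-- Truncation after change of coefficients. -/
noncomputable def tw (p : ℕ) [Fact p.Prime] (J : ℕ) {D B : Type} [CommRing D] [CommRing B]
    (f : D →+* B) : WittVector p D →+* TruncatedWittVector p J B :=
  (WittVector.truncate J).comp (WittVector.map f)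

lemma tw_zero {p : ℕ} [Fact p.Prime] {J : ℕ} {D B : Type} [CommRing D] [CommRing B]
    (f : D →+* B) (x : WittVector p D) : tw p J f x = 0 ↔ ∀ i < J, f (x.coeff i) = 0 := by
  have := WittVector.mem_ker_truncate (p := p) J (WittVector.map f x)
  simp only [WittVector.map_coeff, RingHom.mem_ker] at this
  exact this

lemma trunc_zero {p : ℕ} [Fact p.Prime] {J : ℕ} {D : Type} [CommRing D] (x : WittVector p D) :
    WittVector.truncate J x = 0 ↔ ∀ i < J, x.coeff i = 0 := by
  rw [← WittVector.mem_ker_truncate, RingHom.mem_ker]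

lemma thick_witt {B k : Type} [CommRing B] [CommRing k] {p : ℕ} [Fact p.Prime] [CharP B p]
    {σ : B →+* k} (hσ : Thick σ) (J : ℕ) :
    ∃ ρ : TruncatedWittVector p (J + 1) B →+* k,
      (∀ x, ρ (WittVector.truncate (J + 1) x) = σ (x.coeff 0)) ∧ Thick ρ := by
  obtain ⟨hs, n, hn⟩ := hσ
  refine exists_thick _ (WittVector.truncate_surjective p _ B) (σ.comp WittVector.constantCoeff)
    (hs.comp fun r => ⟨WittVector.teichmuller p r, rfl⟩) (fun x hx => ?_) (n * (J + 1)) ?_
  · have := (WittVector.mem_ker_truncate _ _).1 hx 0 J.succ_pos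
    show σ (x.coeff 0) = 0
    rw [this, map_zero]
  · rw [pow_mul]
    refine (Ideal.pow_right_mono ?_ _).trans (ker_cc_pow _)
    rw [← RingHom.comap_ker]
    refine (Ideal.le_comap_pow _ n).trans ?_
    rw [hn]
    rfl

variable {G I : Type} [Group G] [Fintype I] [DecidableEq I]

lemma Van.mem_pow {D k : Type} [CommRing D] [CommRing k] {σ : D →+* k} (hσ : Surjective σ)
    {A : Matrix I I (MonoidAlgebra D G)} (hA : A * A = A) {g : G} (H : Van g (mp σ A)) (n : ℕ) :
    tau (fun h => IsConj h g) A ∈ RingHom.ker σ ^ n := by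
  obtain ⟨ρ, h1, h2⟩ := thick_pow hσ n
  have := H _ ρ h2 (mp (Ideal.Quotient.mk _) A) (by rw [← map_mul, hA])
    (by rw [mp_mp]; exact mp_congr h1 A)
  rw [tau_mp, Ideal.Quotient.eq_zero_iff_mem] at this
  exact Ideal.pow_le_pow_right n.le_succ this

theorem Van.move {D k k' : Type} [CommRing D] [IsDomain D] [IsNoetherianRing D] [Field k]
    [Field k'] [Finite k'] {p : ℕ} (hp : p.Prime) [CharP k' p] {σ : D →+* k} (hσ : Surjective σ)
    {σ' : D →+* k'} (hσ' : Surjective σ') {A : Matrix I I (MonoidAlgebra D G)} (hA : A * A = A)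
    {g : G} (H : Van g (mp σ A)) : Van g (mp σ' A) := by
  have krull : ∀ {l : Type} [Field l] (s : D →+* l) (x : D), (∀ n, x ∈ RingHom.ker s ^ n) →
      x = 0 := fun s x hx => by
    rw [← Ideal.mem_bot, ← Ideal.iInf_pow_eq_bot_of_isDomain _ (RingHom.ker_ne_top s),
      Ideal.mem_iInf]
    exact hx
  refine van_crit hp (by rw [← map_mul, hA]) fun j => ?_
  by_cases h0 : (p : D) = 0
  · have := Fact.mk hp
    have := (CharP.charP_iff_prime_eq_zero hp).2 h0
    obtain ⟨ρ0, a1, a2⟩ := thick_witt (p := p) (thick_id D) j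
    obtain ⟨B0, b1, b2⟩ := a2.lift hA
    obtain ⟨e, rfl⟩ := mp_surj (WittVector.truncate_surjective p (j + 1) D) B0
    rw [mp_mp] at b2
    have idem : ∀ {B : Type} [CommRing B] (f : D →+* B),
        mp (tw p (j + 1) f) e * mp (tw p (j + 1) f) e = mp (tw p (j + 1) f) e := fun f =>
      mp_idem (ρ := WittVector.truncate (p := p) (j + 1)) (fun x hx => (tw_zero f x).2 fun i hi => by
        rw [(trunc_zero x).1 hx i hi, map_zero]) b1
    have hz : ∀ i < j + 1, (tau (fun h => IsConj h g) e).coeff i = 0 := fun i hi =>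
      krull σ _ fun n => by
        obtain ⟨ρ, h1, h2⟩ := thick_pow hσ n
        have := ρ.domain_nontrivial
        have : CharP (D ⧸ RingHom.ker σ ^ (n + 1)) p := (CharP.charP_iff_prime_eq_zero hp).2 (by
          rw [← map_natCast (Ideal.Quotient.mk _), h0, map_zero])
        obtain ⟨ρ1, c1, c2⟩ := thick_witt (p := p) h2 j
        have h3 := H _ ρ1 c2 _ (idem (Ideal.Quotient.mk _)) (by
          rw [← b2, mp_mp, mp_mp]
          exact mp_congr (fun x => by simp [tw, c1, a1, h1]) e)
        rw [tau_mp, tw_zero] at h3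
        exact Ideal.pow_le_pow_right n.le_succ (Ideal.Quotient.eq_zero_iff_mem.1 (h3 i hi))
    obtain ⟨ρ1, c1, c2⟩ := thick_witt (p := p) (thick_id k') j
    refine ⟨_, inferInstance, ρ1, _, c2, fun h => ?_, idem σ', ?_, ?_⟩
    · rw [← map_natCast (WittVector.truncate (p := p) (R := k') (j + 1)), ← map_pow,
        trunc_zero] at h
      have := h j j.lt_succ_self
      rw [WittVector.coeff_p_pow] at this
      exact one_ne_zero this
    · rw [← b2, mp_mp, mp_mp]
      exact mp_congr (fun x => by simp [tw, c1, a1]) e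
    · rw [tau_mp, tw_zero]
      exact fun i hi => by rw [hz i hi, map_zero]
  · have h1 := krull σ _ (H.mem_pow hσ hA)
    obtain ⟨n, hn⟩ : ∃ n, (p : D) ^ j ∉ RingHom.ker σ' ^ n := by
      by_contra hc
      push Not at hc
      exact pow_ne_zero j h0 (krull σ' _ hc)
    obtain ⟨ρ, c1, c2⟩ := thick_pow hσ' n
    refine ⟨_, inferInstance, ρ, mp (Ideal.Quotient.mk _) A, c2, fun h => hn ?_,
      by rw [← map_mul, hA], by rw [mp_mp]; exact mp_congr c1 A, by rw [tau_mp, h1, map_zero]⟩
    rw [← map_natCast (Ideal.Quotient.mk _), ← map_pow, Ideal.Quotient.eq_zero_iff_mem] at h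
    exact Ideal.pow_le_pow_right n.le_succ h

end Pool.Agent.Lib.MP_7903c7_al.AR
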